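import Pool.Agent.Results.MP_fa1f9f_an.LossOne

/-!
# Loss one at every rate

For every `r ≥ 0` there is a bounded convex symmetric class `F_r ⊆ B(ℕ)` for which the randomized
rate with function values is exactly `r` and the randomized rate with linear information is at
least `r + 1`.
-/

set_option autoImplicit false

namespace Pool.Agent.Results.MP_fa1f9f_an.EveryRate

open MeasureTheory Finset
open scoped ENNReal NNReal
open Pool.Agent.Results.MP_fa1f9f_an.LossOne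

/-! ### The classes -/

/-- the weighted `l_1` ball with weights `(i + 1)^r 2^(ll i)` -/
def Fr (r : ℝ) : Set (BD ℕ) :=
  {f | ∀ s : Finset ℕ, ∑ i ∈ s, ((i : ℝ) + 1) ^ r * (2 ^ ll i * |f i|) ≤ 1}

lemma convex_Fr (r : ℝ) : Convex ℝ (Fr r) := by
  intro f hf g hg a b ha hb hab s
  have h1 : ∀ i, (a • f + b • g : BD ℕ) i = a * f i + b * g i := fun i => rfl
  calc ∑ i ∈ s, ((i : ℝ) + 1) ^ r * (2 ^ ll i * |(a • f + b • g : BD ℕ) i|)
      ≤ ∑ i ∈ s, (a * (((i : ℝ) + 1) ^ r * (2 ^ ll i * |f i|))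
          + b * (((i : ℝ) + 1) ^ r * (2 ^ ll i * |g i|))) := by
        apply sum_le_sum
        intro i _
        rw [h1]
        have h2 : |a * f i + b * g i| ≤ a * |f i| + b * |g i| := by
          refine (abs_add_le _ _).trans ?_
          rw [abs_mul, abs_mul, abs_of_nonneg ha, abs_of_nonneg hb]
        have h3 : (0 : ℝ) ≤ ((i : ℝ) + 1) ^ r * 2 ^ ll i := by positivity
        have h4 := mul_le_mul_of_nonneg_left h2 h3
        calc ((i : ℝ) + 1) ^ r * (2 ^ ll i * |a * f i + b * g i|)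
            = ((i : ℝ) + 1) ^ r * 2 ^ ll i * |a * f i + b * g i| := by ring
          _ ≤ ((i : ℝ) + 1) ^ r * 2 ^ ll i * (a * |f i| + b * |g i|) := h4
          _ = _ := by ring
    _ = a * ∑ i ∈ s, ((i : ℝ) + 1) ^ r * (2 ^ ll i * |f i|)
          + b * ∑ i ∈ s, ((i : ℝ) + 1) ^ r * (2 ^ ll i * |g i|) := by
        rw [sum_add_distrib, mul_sum, mul_sum]
    _ ≤ a * 1 + b * 1 := add_le_add (mul_le_mul_of_nonneg_left (hf s) ha)
        (mul_le_mul_of_nonneg_left (hg s) hb)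
    _ = 1 := by rw [mul_one, mul_one, hab]

lemma symm_Fr (r : ℝ) : ∀ f ∈ Fr r, -f ∈ Fr r := by
  intro f hf s
  have h1 : ∀ i, (-f : BD ℕ) i = - f i := fun i => rfl
  simp only [h1, abs_neg]
  exact hf s

lemma apply_le_Fr {r : ℝ} {f : BD ℕ} (hf : f ∈ Fr r) (i : ℕ) :
    ((i : ℝ) + 1) ^ r * (2 ^ ll i * |f i|) ≤ 1 := by
  have := hf {i}
  simpa using this

lemma abs_le_of_mem {r : ℝ} {f : BD ℕ} (hf : f ∈ Fr r) (i : ℕ) :
    |f i| ≤ ((i : ℝ) + 1) ^ (-r) := by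
  have h1 := apply_le_Fr hf i
  have hpos : (0 : ℝ) < (i : ℝ) + 1 := by positivity
  have h2 : (1 : ℝ) ≤ 2 ^ ll i := one_le_pow₀ (by norm_num)
  have h3 := abs_nonneg (f i)
  have h4 : |f i| ≤ 2 ^ ll i * |f i| := by nlinarith
  rw [Real.rpow_neg hpos.le, ← one_div, le_div_iff₀ (Real.rpow_pos_of_pos hpos r)]
  have h5 := mul_le_mul_of_nonneg_left h4 (Real.rpow_pos_of_pos hpos r).le
  linarith

lemma norm_le_one_Fr {r : ℝ} (hr : 0 ≤ r) {f : BD ℕ} (hf : f ∈ Fr r) : ‖f‖ ≤ 1 := by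
  apply lp.norm_le_of_forall_le zero_le_one
  intro i
  rw [Real.norm_eq_abs]
  refine (abs_le_of_mem hf i).trans ?_
  apply Real.rpow_le_one_of_one_le_of_nonpos
  · have : (0 : ℝ) ≤ i := by positivity
    linarith
  · linarith

/-! ### Truncation -/

/-- the first `n` coordinates -/
noncomputable def tr (n : ℕ) : BD ℕ →L[ℝ] BD ℕ :=
  ∑ i ∈ range n, (lp.evalCLM ℝ (fun _ : ℕ => ℝ) ∞ i).smulRight (vec 1 i)

lemma tr_succ (n : ℕ) (f : BD ℕ) : tr (n + 1) f = tr n f + f n • vec 1 n := by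
  unfold tr
  rw [sum_range_succ]
  rfl

lemma tr_apply (n : ℕ) (f : BD ℕ) (j : ℕ) : tr n f j = if j < n then f j else 0 := by
  induction n with
  | zero =>
    simp [tr]
  | succ n ih =>
    rw [tr_succ]
    show tr n f j + f n * vec 1 n j = _
    rw [ih, vec_apply]
    by_cases h1 : j < n
    · have h2 : j ≠ n := by omega
      have h3 : j < n + 1 := by omega
      simp [h1, h2, h3]
    · by_cases h2 : j = n
      · subst h2
        simp
      · have h3 : ¬ j < n + 1 := by omega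
        simp [h1, h2, h3]

/-! ### Algorithms -/

lemma isAlg_post {X Y Z : Type} {Λ : Set (X → ℝ)} {n : ℕ} {A : X → Y} (hA : IsAlg Λ n A)
    (g : Y → Z) : IsAlg Λ n (fun x => g (A x)) := by
  induction n generalizing A with
  | zero =>
    obtain ⟨c, hc⟩ := hA
    exact ⟨g c, fun x => congrArg g (hc x)⟩
  | succ n ih =>
    obtain ⟨L, hL, A', hA', h⟩ := hA
    exact ⟨L, hL, fun v x => g (A' v x), fun v => ih (hA' v), fun x => congrArg g (h x)⟩

lemma isAlg_comp {n : ℕ} {Y : Type} {A : BD ℕ → Y} (hA : IsAlg (lin ℕ) n A)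
    (T : BD ℕ →L[ℝ] BD ℕ) : IsAlg (lin ℕ) n (fun f => A (T f)) := by
  induction n generalizing A with
  | zero =>
    obtain ⟨c, hc⟩ := hA
    exact ⟨c, fun x => hc _⟩
  | succ n ih =>
    obtain ⟨L, ⟨φ, hφ⟩, A', hA', h⟩ := hA
    refine ⟨fun f => L (T f), ⟨φ.comp T, fun f => hφ (T f)⟩, fun v f => A' v (T f),
      fun v => ih (hA' v), fun f => h _⟩

lemma isAlg_read {Λ : Set (BD ℕ → ℝ)} (hΛ : ∀ i : ℕ, (fun f : BD ℕ => f i) ∈ Λ) {Y Z : Type}
    {m : ℕ} {B : BD ℕ → Y} (hB : IsAlg Λ m B) (n : ℕ) (Φ : BD ℕ → Y → Z) :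
    IsAlg Λ (n + m) (fun f => Φ (tr n f) (B f)) := by
  induction n generalizing Φ with
  | zero =>
    have h1 : (fun f : BD ℕ => Φ (tr 0 f) (B f)) = fun f => Φ 0 (B f) := by
      funext f
      congr 1
    rw [h1, zero_add]
    exact isAlg_post hB _
  | succ n ih =>
    have h1 : n + 1 + m = (n + m) + 1 := by omega
    rw [h1]
    refine ⟨fun f => f n, hΛ n, fun v f => Φ (tr n f + v • vec 1 n) (B f), fun v => ?_, fun f => ?_⟩
    · exact ih (fun u y => Φ (u + v • vec 1 n) y)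
    · show Φ (tr (n + 1) f) (B f) = Φ (tr n f + f n • vec 1 n) (B f)
      rw [tr_succ]

lemma std_coord (i : ℕ) : (fun f : BD ℕ => f i) ∈ std ℕ := ⟨i, fun _ => rfl⟩

lemma lin_coord (i : ℕ) : (fun f : BD ℕ => f i) ∈ lin ℕ :=
  ⟨lp.evalCLM ℝ (fun _ : ℕ => ℝ) ∞ i, fun _ => rfl⟩

lemma eRan_anti' (G : Set (BD ℕ)) : Antitone (eRan G (lin ℕ)) := by
  apply antitone_nat_of_succ_le
  intro n
  apply sInf_le_sInf
  rintro e ⟨Ω, m, μ, hμ, A, hA, hmeas, rfl⟩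
  exact ⟨Ω, m, μ, hμ, A, fun ω => (hA ω).succ lin_nonempty, hmeas, rfl⟩

/-! ### Function values: upper bound for the error -/

lemma eRan_std_le {r : ℝ} (hr : 0 ≤ r) (n : ℕ) :
    eRan (Fr r) (std ℕ) n ≤ ENNReal.ofReal (((n : ℝ) + 1) ^ (-r)) := by
  have hA : IsAlg (std ℕ) n (fun f : BD ℕ => tr n f) := by
    have h0 : IsAlg (std ℕ) 0 (fun _ : BD ℕ => ()) := ⟨(), fun _ => rfl⟩
    have h1 := isAlg_read std_coord h0 n (fun u _ => u)
    rwa [add_zero] at h1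
  have hmem : (⨆ f ∈ Fr r, ∫⁻ _ω : Unit, ENNReal.ofReal ‖f - tr n f‖ ∂(Measure.dirac ()))
      ∈ ranErrors (Fr r) (std ℕ) n := by
    refine ⟨Unit, inferInstance, Measure.dirac (), inferInstance, fun _ f => tr n f,
      fun _ => hA, fun f _ => measurable_const, rfl⟩
  refine (sInf_le hmem).trans ?_
  apply iSup₂_le
  intro f hf
  rw [lintegral_const, measure_univ, mul_one]
  apply ENNReal.ofReal_le_ofReal
  apply lp.norm_le_of_forall_le (by positivity)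
  intro i
  have h1 : (f - tr n f) i = f i - tr n f i := rfl
  rw [h1, tr_apply, Real.norm_eq_abs]
  split_ifs with h
  · rw [sub_self, abs_zero]
    positivity
  · rw [sub_zero]
    refine (abs_le_of_mem hf i).trans ?_
    apply Real.rpow_le_rpow_of_nonpos (by positivity) _ (by linarith)
    have : (n : ℝ) ≤ i := by exact_mod_cast not_lt.mp h
    linarith

/-! ### Linear information: reduction to the case `r = 0` -/

lemma eRan_lin_add {r : ℝ} (hr : 0 ≤ r) (n m : ℕ) :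
    eRan (Fr r) (lin ℕ) (n + m) ≤ ENNReal.ofReal (((n : ℝ) + 1) ^ (-r)) * eRan F (lin ℕ) m := by
  set c : ℝ := ((n : ℝ) + 1) ^ (-r) with hc
  have hn1 : (0 : ℝ) < (n : ℝ) + 1 := by positivity
  have hcpos : 0 < c := Real.rpow_pos_of_pos hn1 _
  have hcinv : c⁻¹ = ((n : ℝ) + 1) ^ r := by
    rw [hc, Real.rpow_neg hn1.le, inv_inv]
  have hc0 : ENNReal.ofReal c ≠ 0 := (ENNReal.ofReal_pos.mpr hcpos).ne'
  have hct : ENNReal.ofReal c ≠ ∞ := ENNReal.ofReal_ne_top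
  rw [eRan, eRan, sInf_eq_iInf' (ranErrors F (lin ℕ) m), ENNReal.mul_iInf_of_ne hc0 hct]
  apply le_iInf
  rintro ⟨e, Ω, mΩ, μ, hμ, A, hA, hmeas, rfl⟩
  simp only
  set T : BD ℕ →L[ℝ] BD ℕ := c⁻¹ • (ContinuousLinearMap.id ℝ (BD ℕ) - tr n) with hT
  have hTf : ∀ f : BD ℕ, T f = c⁻¹ • (f - tr n f) := fun f => rfl
  have hTi : ∀ (f : BD ℕ) (i : ℕ), T f i = c⁻¹ * (if i < n then 0 else f i) := by
    intro f i
    have h1 : T f i = c⁻¹ * (f i - tr n f i) := rfl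
    rw [h1, tr_apply]
    split_ifs <;> simp
  have hTF : ∀ f ∈ Fr r, T f ∈ F := by
    intro f hf s
    refine le_trans (sum_le_sum fun i _ => ?_) (hf s)
    rw [hTi, hcinv]
    split_ifs with h
    · simp only [mul_zero, abs_zero]
      positivity
    · rw [abs_mul, abs_of_pos (Real.rpow_pos_of_pos hn1 r)]
      have h1 : ((n : ℝ) + 1) ^ r ≤ ((i : ℝ) + 1) ^ r := by
        apply Real.rpow_le_rpow hn1.le _ hr
        have : (n : ℝ) ≤ i := by exact_mod_cast not_lt.mp h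
        linarith
      have h2 : (0 : ℝ) ≤ 2 ^ ll i * |f i| := by positivity
      have h3 := mul_le_mul_of_nonneg_right h1 h2
      calc (2 : ℝ) ^ ll i * (((n : ℝ) + 1) ^ r * |f i|)
          = ((n : ℝ) + 1) ^ r * (2 ^ ll i * |f i|) := by ring
        _ ≤ _ := h3
  have herr : ∀ (ω : Ω) (f : BD ℕ),
      ‖f - (tr n f + c • A ω (T f))‖ = c * ‖T f - A ω (T f)‖ := by
    intro ω f
    have h1 : f - (tr n f + c • A ω (T f)) = c • (T f - A ω (T f)) := by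
      rw [smul_sub, hTf, smul_smul, mul_inv_cancel₀ hcpos.ne', one_smul]
      abel
    rw [h1, norm_smul, Real.norm_eq_abs, abs_of_pos hcpos]
  have hmem : (⨆ f ∈ Fr r, ∫⁻ ω, ENNReal.ofReal ‖f - (tr n f + c • A ω (T f))‖ ∂μ)
      ∈ ranErrors (Fr r) (lin ℕ) (n + m) := by
    refine ⟨Ω, mΩ, μ, hμ, fun ω f => tr n f + c • A ω (T f), fun ω => ?_, fun f hf => ?_, rfl⟩
    · exact isAlg_read lin_coord (isAlg_comp (hA ω) T) n (fun u y => u + c • y)
    · simp only [herr]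
      exact (hmeas _ (hTF f hf)).const_mul c
  refine (sInf_le hmem).trans ?_
  apply iSup₂_le
  intro f hf
  have h1 : ∫⁻ ω, ENNReal.ofReal ‖f - (tr n f + c • A ω (T f))‖ ∂μ
      = ENNReal.ofReal c * ∫⁻ ω, ENNReal.ofReal ‖T f - A ω (T f)‖ ∂μ := by
    rw [← lintegral_const_mul' _ _ hct]
    apply lintegral_congr
    intro ω
    rw [herr, ENNReal.ofReal_mul hcpos.le]
  rw [h1]
  gcongr
  exact le_iSup₂ (f := fun g (_ : g ∈ F) => ∫⁻ ω, ENNReal.ofReal ‖g - A ω g‖ ∂μ) (T f) (hTF f hf)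

/-! ### Function values: lower bound for the error -/

lemma vec_mem_Fr {r c : ℝ} {j : ℕ} (h : ((j : ℝ) + 1) ^ r * (2 ^ ll j * |c|) ≤ 1) :
    vec c j ∈ Fr r := by
  intro s
  by_cases hj : j ∈ s
  · rw [sum_eq_single_of_mem j hj]
    · rw [vec_apply, if_pos rfl]; exact h
    · intro i _ hij
      rw [vec_apply, if_neg hij]; simp
  · rw [sum_eq_zero]
    · exact zero_le_one
    · intro i hi
      have hij : i ≠ j := fun h => hj (h ▸ hi)
      rw [vec_apply, if_neg hij]; simp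

/-- lower bound for randomized algorithms using function values -/
lemma eRan_std_ge' (G : Set (BD ℕ)) {n : ℕ} (hn : 1 ≤ n) {c : ℝ} (hcpos : 0 < c)
    (hmem : ∀ (σ : Bool) (j : ℕ), j < 2 * n → vec (if σ then c else -c) j ∈ G) :
    ENNReal.ofReal (c / 2) ≤ eRan G (std ℕ) n := by
  apply le_sInf
  rintro e ⟨Ω, _, μ, hμ, A, hA, hmeas, rfl⟩
  set E : ℝ≥0∞ := ⨆ f ∈ G, ∫⁻ ω, ENNReal.ofReal ‖f - A ω f‖ ∂μ with hE
  have hle : ∀ f ∈ G, ∫⁻ ω, ENNReal.ofReal ‖f - A ω f‖ ∂μ ≤ E := fun f hf =>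
    le_iSup₂ (f := fun f (_ : f ∈ G) => ∫⁻ ω, ENNReal.ofReal ‖f - A ω f‖ ∂μ) f hf
  -- pointwise lower bound
  have hpt : ∀ ω, ENNReal.ofReal (2 * c * n) ≤ ∑ j ∈ range (2 * n),
      (ENNReal.ofReal ‖vec c j - A ω (vec c j)‖ + ENNReal.ofReal ‖vec (-c) j - A ω (vec (-c) j)‖) := by
    intro ω
    obtain ⟨V, hV, hV'⟩ := (hA ω).nodes
    have h1 : n ≤ ((range (2 * n)) \ V).card := by
      have := le_card_sdiff V (range (2 * n))
      rw [card_range] at this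
      omega
    calc ENNReal.ofReal (2 * c * n) = (n : ℝ≥0∞) * ENNReal.ofReal (2 * c) := by
          rw [mul_comm (2 * c), ENNReal.ofReal_mul (by positivity), ENNReal.ofReal_natCast]
      _ ≤ (((range (2 * n)) \ V).card : ℝ≥0∞) * ENNReal.ofReal (2 * c) := by
          gcongr
      _ = ∑ _j ∈ (range (2 * n)) \ V, ENNReal.ofReal (2 * c) := by
          rw [sum_const, nsmul_eq_mul]
      _ ≤ ∑ j ∈ (range (2 * n)) \ V,
        (ENNReal.ofReal ‖vec c j - A ω (vec c j)‖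
          + ENNReal.ofReal ‖vec (-c) j - A ω (vec (-c) j)‖) := by
          apply sum_le_sum
          intro j hj
          have hjV : j ∉ V := (mem_sdiff.mp hj).2
          have e1 : A ω (vec c j) = A ω 0 := hV' _ (fun x hx => by
            rw [vec_apply, if_neg]; rintro rfl; exact hjV hx)
          have e2 : A ω (vec (-c) j) = A ω 0 := hV' _ (fun x hx => by
            rw [vec_apply, if_neg]; rintro rfl; exact hjV hx)
          rw [e1, e2, ← ENNReal.ofReal_add (norm_nonneg _) (norm_nonneg _)]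
          apply ENNReal.ofReal_le_ofReal
          have h2 : vec (-c) j = - vec c j := by
            ext i
            show vec (-c) j i = - (vec c j i)
            rw [vec_apply, vec_apply]
            split_ifs <;> simp
          have h3 : ‖(vec c j - A ω 0) - (vec (-c) j - A ω 0)‖ = 2 * c := by
            have : (vec c j - A ω 0) - (vec (-c) j - A ω 0) = (2 : ℝ) • vec c j := by
              rw [h2, two_smul]; abel
            rw [this, norm_smul, norm_vec, abs_of_pos hcpos]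
            norm_num
          rw [← h3]
          exact norm_sub_le _ _
      _ ≤ _ := sum_le_sum_of_subset sdiff_subset
  -- integrate
  have hI : ENNReal.ofReal (2 * c * n) ≤ (2 * n : ℕ) * (E + E) := by
    calc ENNReal.ofReal (2 * c * n) = ∫⁻ _ω, ENNReal.ofReal (2 * c * n) ∂μ := by
          rw [lintegral_const, measure_univ, mul_one]
      _ ≤ ∫⁻ ω, ∑ j ∈ range (2 * n),
      (ENNReal.ofReal ‖vec c j - A ω (vec c j)‖
        + ENNReal.ofReal ‖vec (-c) j - A ω (vec (-c) j)‖) ∂μ := lintegral_mono hpt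
      _ = ∑ j ∈ range (2 * n), ∫⁻ ω, (ENNReal.ofReal ‖vec c j - A ω (vec c j)‖
        + ENNReal.ofReal ‖vec (-c) j - A ω (vec (-c) j)‖) ∂μ := by
          apply lintegral_finsetSum
          intro j hj
          rw [mem_range] at hj
          exact ((hmeas _ (by simpa using hmem true j hj)).ennreal_ofReal).add
            ((hmeas _ (by simpa using hmem false j hj)).ennreal_ofReal)
      _ ≤ ∑ _j ∈ range (2 * n), (E + E) := by
          apply sum_le_sum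
          intro j hj
          rw [mem_range] at hj
          rw [lintegral_add_left ((hmeas _ (by simpa using hmem true j hj)).ennreal_ofReal)]
          exact add_le_add (hle _ (by simpa using hmem true j hj))
            (hle _ (by simpa using hmem false j hj))
      _ = (2 * n : ℕ) * (E + E) := by
          rw [sum_const, card_range, nsmul_eq_mul]
  have hnpos : (0 : ℝ) < n := by exact_mod_cast hn
  have h5 : ENNReal.ofReal (2 * c * n) = ((4 * n : ℕ) : ℝ≥0∞) * ENNReal.ofReal (c / 2) := by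
    rw [← ENNReal.ofReal_natCast, ← ENNReal.ofReal_mul (by positivity)]
    congr 1
    push_cast
    ring
  have h6 : ((2 * n : ℕ) : ℝ≥0∞) * (E + E) = ((4 * n : ℕ) : ℝ≥0∞) * E := by
    push_cast; ring
  rw [h5, h6] at hI
  have h7 : ((4 * n : ℕ) : ℝ≥0∞) ≠ 0 := by
    simp; omega
  exact (ENNReal.mul_le_mul_iff_right h7 (ENNReal.natCast_ne_top _)).mp hI

lemma eRan_std_pow_ge (r : ℝ≥0) (j : ℕ) :
    ENNReal.ofReal (1 / (4 * ((j : ℝ) + 2) * ((2 : ℝ) ^ (r : ℝ) * ((2 : ℝ) ^ (r : ℝ)) ^ j)))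
      ≤ eRan (Fr r) (std ℕ) (2 ^ j) := by
  have hn : 1 ≤ 2 ^ j := Nat.one_le_two_pow
  set L := Nat.log 2 (j + 2) with hLdef
  have hL : ∀ i < 2 * 2 ^ j, ll i ≤ L := by
    intro i hi
    apply Nat.log_mono_right
    have : i ≤ 2 ^ (j + 1) := by rw [pow_succ]; omega
    calc Nat.log 2 i ≤ Nat.log 2 (2 ^ (j + 1)) := Nat.log_mono_right this
      _ = j + 1 := Nat.log_pow (by norm_num) _
      _ ≤ j + 2 := by omega
  set c : ℝ := 1 / (2 ^ L * ((2 : ℝ) ^ (r : ℝ) * ((2 : ℝ) ^ (r : ℝ)) ^ j)) with hc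
  have h2r : (0 : ℝ) < (2 : ℝ) ^ (r : ℝ) := by positivity
  have hcpos : 0 < c := by positivity
  have hpow : (((2 * 2 ^ j : ℕ) : ℝ)) ^ (r : ℝ) = (2 : ℝ) ^ (r : ℝ) * ((2 : ℝ) ^ (r : ℝ)) ^ j := by
    push_cast
    rw [Real.mul_rpow (by norm_num) (by positivity), ← Real.rpow_natCast, ← Real.rpow_natCast,
      ← Real.rpow_mul (by norm_num), ← Real.rpow_mul (by norm_num), mul_comm (j : ℝ)]
  have hmem : ∀ (σ : Bool) (i : ℕ), i < 2 * 2 ^ j →
      vec (if σ then c else -c) i ∈ Fr (r : ℝ) := by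
    intro σ i hi
    apply vec_mem_Fr
    have h1 : |if σ then c else -c| = c := by
      split_ifs
      · exact abs_of_pos hcpos
      · rw [abs_neg]; exact abs_of_pos hcpos
    rw [h1]
    have h2 : ((i : ℝ) + 1) ^ (r : ℝ) ≤ (2 : ℝ) ^ (r : ℝ) * ((2 : ℝ) ^ (r : ℝ)) ^ j := by
      rw [← hpow]
      apply Real.rpow_le_rpow (by positivity) _ r.2
      exact_mod_cast hi
    have h3 : (2 : ℝ) ^ ll i ≤ 2 ^ L := pow_le_pow_right₀ (by norm_num) (hL i hi)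
    calc ((i : ℝ) + 1) ^ (r : ℝ) * (2 ^ ll i * c)
        ≤ ((2 : ℝ) ^ (r : ℝ) * ((2 : ℝ) ^ (r : ℝ)) ^ j) * (2 ^ L * c) := by gcongr
      _ = 1 := by rw [hc]; field_simp
  refine le_trans (ENNReal.ofReal_le_ofReal ?_) (eRan_std_ge' (Fr r) hn hcpos hmem)
  have h3 : (2 : ℝ) ^ L ≤ (j : ℝ) + 2 := by
    have := Nat.pow_log_le_self 2 (x := j + 2) (by omega)
    rw [hLdef]
    exact_mod_cast this
  have h4 : c / 2 = 1 / (2 * 2 ^ L * ((2 : ℝ) ^ (r : ℝ) * ((2 : ℝ) ^ (r : ℝ)) ^ j)) := by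
    rw [hc]; field_simp
  rw [h4]
  apply one_div_le_one_div_of_le (by positivity)
  apply mul_le_mul_of_nonneg_right _ (by positivity)
  have : (0 : ℝ) ≤ j := by positivity
  linarith

/-- the rate for function values is `r` -/
lemma rate_std_Fr (r : ℝ≥0) : rate (fun n => eRan (Fr r) (std ℕ) n) = r := by
  apply le_antisymm
  · apply sSup_le
    rintro _ ⟨α, rfl, hα⟩
    by_contra hne
    rw [not_le] at hne
    have hlt : (r : ℝ) < α := by exact_mod_cast hne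
    set δ : ℝ := (α : ℝ) - r with hδ
    have hδpos : 0 < δ := by linarith
    set C := ⨆ (n : ℕ) (_ : 1 ≤ n), (n : ℝ≥0∞) ^ (α : ℝ) * eRan (Fr r) (std ℕ) n with hC
    have h2r : (0 : ℝ) < (2 : ℝ) ^ (r : ℝ) := by positivity
    have h1 : ∀ j : ℕ, ENNReal.ofReal
        (((2 : ℝ) ^ δ) ^ j / (4 * ((j : ℝ) + 2) * (2 : ℝ) ^ (r : ℝ))) ≤ C := by
      intro j
      have hn : 1 ≤ 2 ^ j := Nat.one_le_two_pow
      have hle : ((2 ^ j : ℕ) : ℝ≥0∞) ^ (α : ℝ) * eRan (Fr r) (std ℕ) (2 ^ j) ≤ C :=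
        le_iSup₂ (f := fun (n : ℕ) (_ : 1 ≤ n) => (n : ℝ≥0∞) ^ (α : ℝ) * eRan (Fr r) (std ℕ) n)
          (2 ^ j) hn
      refine le_trans ?_ hle
      have h2 : ((2 : ℝ) ^ δ) ^ j / (4 * ((j : ℝ) + 2) * (2 : ℝ) ^ (r : ℝ))
          = ((2 : ℝ) ^ (α : ℝ)) ^ j *
            (1 / (4 * ((j : ℝ) + 2) * ((2 : ℝ) ^ (r : ℝ) * ((2 : ℝ) ^ (r : ℝ)) ^ j))) := by
        have h3 : ((2 : ℝ) ^ (α : ℝ)) = (2 : ℝ) ^ δ * (2 : ℝ) ^ (r : ℝ) := by
          rw [← Real.rpow_add (by norm_num)]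
          congr 1
          rw [hδ]; ring
        rw [h3, mul_pow]
        field_simp
      rw [h2, ENNReal.ofReal_mul (by positivity)]
      apply mul_le_mul'
      · rw [← ENNReal.ofReal_natCast, ENNReal.ofReal_rpow_of_pos (by positivity)]
        apply ENNReal.ofReal_le_ofReal
        push_cast
        rw [← Real.rpow_natCast, ← Real.rpow_natCast, ← Real.rpow_mul (by norm_num),
          ← Real.rpow_mul (by norm_num), mul_comm]
      · exact eRan_std_pow_ge r j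
    have hbase : (1 : ℝ) < (2 : ℝ) ^ δ := Real.one_lt_rpow (by norm_num) hδpos
    have h4 := tendsto_pow_const_div_const_pow_of_one_lt 1 hbase
    have h5 : ∀ j : ℕ, ((2 : ℝ) ^ δ) ^ j / (4 * ((j : ℝ) + 2) * (2 : ℝ) ^ (r : ℝ)) ≤ C.toReal := by
      intro j
      rw [← ENNReal.ofReal_le_iff_le_toReal hα.ne]
      exact h1 j
    have hC0 : 0 < C.toReal := lt_of_lt_of_le (by positivity) (h5 0)
    have h6 : ∀ᶠ j : ℕ in Filter.atTop,
        (j : ℝ) ^ 1 / ((2 : ℝ) ^ δ) ^ j < 1 / (12 * (2 : ℝ) ^ (r : ℝ) * C.toReal) :=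
      h4.eventually (gt_mem_nhds (by positivity))
    obtain ⟨j, hj1, hj2⟩ := (h6.and (Filter.eventually_ge_atTop 1)).exists
    have h7 := h5 j
    have hj3 : (1 : ℝ) ≤ j := by exact_mod_cast hj2
    rw [div_lt_div_iff₀ (by positivity) (by positivity), pow_one, one_mul] at hj1
    rw [div_le_iff₀ (by positivity)] at h7
    have h8 : 0 < (2 : ℝ) ^ (r : ℝ) * C.toReal := by positivity
    nlinarith
  · apply le_sSup
    refine ⟨r, rfl, ?_⟩
    refine lt_of_le_of_lt (b := 1) ?_ ENNReal.one_lt_top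
    apply iSup₂_le
    intro n hn
    have hn0 : (0 : ℝ) < n := by exact_mod_cast hn
    calc (n : ℝ≥0∞) ^ (r : ℝ) * eRan (Fr r) (std ℕ) n
        ≤ (n : ℝ≥0∞) ^ (r : ℝ) * ENNReal.ofReal (((n : ℝ) + 1) ^ (-(r : ℝ))) := by
          gcongr
          exact eRan_std_le r.2 n
      _ = ENNReal.ofReal ((n : ℝ) ^ (r : ℝ) * ((n : ℝ) + 1) ^ (-(r : ℝ))) := by
          rw [← ENNReal.ofReal_natCast, ENNReal.ofReal_rpow_of_pos hn0,
            ← ENNReal.ofReal_mul (by positivity)]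
      _ ≤ 1 := by
          rw [ENNReal.ofReal_le_one, Real.rpow_neg (by positivity), ← div_eq_mul_inv,
            div_le_one (by positivity)]
          apply Real.rpow_le_rpow hn0.le (by linarith) r.2

/-! ### The rate for linear information -/

lemma bdd_of_lt_rate {a : ℕ → ℝ≥0∞} {α : ℝ≥0} (h : (α : ℝ≥0∞) < rate a) :
    ⨆ (n : ℕ) (_ : 1 ≤ n), (n : ℝ≥0∞) ^ (α : ℝ) * a n < ∞ := by
  obtain ⟨s, ⟨β, rfl, hβ⟩, hs⟩ := lt_sSup_iff.mp h
  refine lt_of_le_of_lt ?_ hβ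
  apply iSup₂_mono
  intro n hn
  gcongr
  · exact_mod_cast hn
  · exact_mod_cast hs.le

lemma le_rate_lin_Fr (r α : ℝ≥0) (hα : α < 1) :
    ((r + α : ℝ≥0) : ℝ≥0∞) ≤ rate (fun n => eRan (Fr r) (lin ℕ) n) := by
  have h1 : (α : ℝ≥0∞) < rate (fun n => eRan F (lin ℕ) n) :=
    lt_of_lt_of_le (by exact_mod_cast hα) rate_lin
  have hK := bdd_of_lt_rate h1
  set K := ⨆ (n : ℕ) (_ : 1 ≤ n), (n : ℝ≥0∞) ^ (α : ℝ) * eRan F (lin ℕ) n with hKdef
  have hKle : ∀ n : ℕ, 1 ≤ n → (n : ℝ≥0∞) ^ (α : ℝ) * eRan F (lin ℕ) n ≤ K := fun n hn =>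
    le_iSup₂ (f := fun (n : ℕ) (_ : 1 ≤ n) => (n : ℝ≥0∞) ^ (α : ℝ) * eRan F (lin ℕ) n) n hn
  apply le_sSup
  refine ⟨r + α, rfl, ?_⟩
  set B : ℝ≥0∞ := (2 : ℝ≥0∞) ^ ((r : ℝ) + α) * (eRan F (lin ℕ) 0 + (2 : ℝ≥0∞) ^ (α : ℝ) * K)
    with hB
  have hBlt : B < ∞ := by
    apply ENNReal.mul_lt_top
    · exact ENNReal.rpow_lt_top_of_nonneg (by positivity) (by norm_num)
    · apply ENNReal.add_lt_top.mpr
      refine ⟨(eRan_lin_ne_top 0).lt_top, ENNReal.mul_lt_top ?_ hK⟩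
      exact ENNReal.rpow_lt_top_of_nonneg (by positivity) (by norm_num)
  refine lt_of_le_of_lt ?_ hBlt
  apply iSup₂_le
  intro n hn
  set m := n / 2 with hm
  have hmn : m + m ≤ n := by omega
  have hnm : n ≤ 2 * (m + 1) := by omega
  have h2 : eRan (Fr r) (lin ℕ) n ≤ ((m + 1 : ℕ) : ℝ≥0∞) ^ (-(r : ℝ)) * eRan F (lin ℕ) m := by
    refine (eRan_anti' _ hmn).trans ((eRan_lin_add r.2 m m).trans (le_of_eq ?_))
    congr 1
    rw [← ENNReal.ofReal_natCast, ENNReal.ofReal_rpow_of_pos (by positivity)]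
    push_cast
    rfl
  have h3 : (n : ℝ≥0∞) ^ ((r : ℝ) + α)
      ≤ (2 : ℝ≥0∞) ^ ((r : ℝ) + α) * ((m + 1 : ℕ) : ℝ≥0∞) ^ ((r : ℝ) + α) := by
    rw [← ENNReal.mul_rpow_of_nonneg _ _ (by positivity)]
    apply ENNReal.rpow_le_rpow _ (by positivity)
    exact_mod_cast hnm
  have hm1 : ((m + 1 : ℕ) : ℝ≥0∞) ≠ 0 := by simp
  have hm2 : ((m + 1 : ℕ) : ℝ≥0∞) ≠ ∞ := ENNReal.natCast_ne_top _
  have h4 : ((m + 1 : ℕ) : ℝ≥0∞) ^ ((r : ℝ) + α) * ((m + 1 : ℕ) : ℝ≥0∞) ^ (-(r : ℝ))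
      = ((m + 1 : ℕ) : ℝ≥0∞) ^ (α : ℝ) := by
    rw [← ENNReal.rpow_add _ _ hm1 hm2]
    congr 1; ring
  have h5 : ((m + 1 : ℕ) : ℝ≥0∞) ^ (α : ℝ) * eRan F (lin ℕ) m
      ≤ eRan F (lin ℕ) 0 + (2 : ℝ≥0∞) ^ (α : ℝ) * K := by
    rcases Nat.eq_zero_or_pos m with h0 | h0
    · rw [h0]
      simp
    · refine le_trans ?_ le_add_self
      have h6 : ((m + 1 : ℕ) : ℝ≥0∞) ^ (α : ℝ) ≤ (2 : ℝ≥0∞) ^ (α : ℝ) * (m : ℝ≥0∞) ^ (α : ℝ) := by
        have hα0 : (0 : ℝ) ≤ (α : ℝ) := α.coe_nonneg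
        rw [← ENNReal.mul_rpow_of_nonneg _ _ hα0]
        apply ENNReal.rpow_le_rpow _ hα0
        have : m + 1 ≤ 2 * m := by omega
        exact_mod_cast this
      calc ((m + 1 : ℕ) : ℝ≥0∞) ^ (α : ℝ) * eRan F (lin ℕ) m
          ≤ (2 : ℝ≥0∞) ^ (α : ℝ) * (m : ℝ≥0∞) ^ (α : ℝ) * eRan F (lin ℕ) m := by gcongr
        _ = (2 : ℝ≥0∞) ^ (α : ℝ) * ((m : ℝ≥0∞) ^ (α : ℝ) * eRan F (lin ℕ) m) := by ring
        _ ≤ (2 : ℝ≥0∞) ^ (α : ℝ) * K := by
            gcongr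
            exact hKle m h0
  show (n : ℝ≥0∞) ^ (((r + α : ℝ≥0)) : ℝ) * eRan (Fr r) (lin ℕ) n ≤ B
  have h7 : (((r + α : ℝ≥0)) : ℝ) = (r : ℝ) + α := by push_cast; rfl
  rw [h7]
  calc (n : ℝ≥0∞) ^ ((r : ℝ) + α) * eRan (Fr r) (lin ℕ) n
      ≤ ((2 : ℝ≥0∞) ^ ((r : ℝ) + α) * ((m + 1 : ℕ) : ℝ≥0∞) ^ ((r : ℝ) + α)) *
          (((m + 1 : ℕ) : ℝ≥0∞) ^ (-(r : ℝ)) * eRan F (lin ℕ) m) := mul_le_mul' h3 h2
    _ = (2 : ℝ≥0∞) ^ ((r : ℝ) + α) * ((((m + 1 : ℕ) : ℝ≥0∞) ^ ((r : ℝ) + α) *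
          ((m + 1 : ℕ) : ℝ≥0∞) ^ (-(r : ℝ))) * eRan F (lin ℕ) m) := by ring
    _ = (2 : ℝ≥0∞) ^ ((r : ℝ) + α) * (((m + 1 : ℕ) : ℝ≥0∞) ^ (α : ℝ) * eRan F (lin ℕ) m) := by
        rw [h4]
    _ ≤ B := by
        rw [hB]
        gcongr

lemma rate_lin_Fr (r : ℝ≥0) : (r : ℝ≥0∞) + 1 ≤ rate (fun n => eRan (Fr r) (lin ℕ) n) := by
  apply ENNReal.le_of_forall_nnreal_lt
  intro b hb
  have hb' : b < r + 1 := by exact_mod_cast hb
  have h1 : b - r < 1 := by
    rcases le_total b r with h | h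
    · rw [tsub_eq_zero_of_le h]; exact one_pos
    · rw [tsub_lt_iff_left h]; exact hb'
  refine le_trans ?_ (le_rate_lin_Fr r (b - r) h1)
  have h2 : b ≤ r + (b - r) := le_add_tsub
  exact_mod_cast h2

/-- **Loss one at every rate.** For every `r ≥ 0` there are a set `D` and a bounded convex
symmetric class `F ⊆ B(D)` for which the rate of randomized algorithms using function values is
exactly `r` although the rate of randomized algorithms using arbitrary linear information is at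
least `r + 1`. -/
theorem result (r : ℝ≥0) : ∃ (D : Type) (_ : Nonempty D) (F : Set (BD D)),
    Convex ℝ F ∧ (∀ f ∈ F, -f ∈ F) ∧ (∀ f ∈ F, ‖f‖ ≤ 1) ∧
    rate (fun n => eRan F (std D) n) = r ∧ (r : ℝ≥0∞) + 1 ≤ rate (fun n => eRan F (lin D) n) :=
  ⟨ℕ, inferInstance, Fr r, convex_Fr r, symm_Fr r, fun _ hf => norm_le_one_Fr r.2 hf,
    rate_std_Fr r, rate_lin_Fr r⟩

end Pool.Agent.Results.MP_fa1f9f_an.EveryRate
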